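import Pool.Agent.Helper365.SQ.Wid
import Pool.Agent.Y981.L2.Xi
import Pool.Agent.Y981.L2X.High

/-!
The lower tail of the width of the planar self-avoiding polygons.  Lower and upper bounds, at all
scales, of the probability that the width is small, in terms of the correlation length.
-/

set_option autoImplicit false

namespace Pool.Agent.Results.MP_c23e5f_co.WidthLowerTail

open Filter Topology

/-- a closed nearest-neighbour loop on `ℤ²` with `m` steps, rooted at the origin and oriented,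
that visits no vertex twice -/
def IsLoop (m : ℕ) (f : ZMod m → ℤ × ℤ) : Prop :=
  f 0 = 0 ∧ Function.Injective f ∧
    ∀ i : ZMod m, |(f (i + 1)).1 - (f i).1| + |(f (i + 1)).2 - (f i).2| = 1

/-- the width (horizontal extent) of a loop -/
noncomputable def width (m : ℕ) (f : ZMod m → ℤ × ℤ) : ℕ :=
  sSup {w : ℕ | ∃ i j, w = ((f i).1 - (f j).1).natAbs}

/-- the proportion of the self-avoiding polygons of perimeter `2 n` with width at most `r` -/
noncomputable def narrow (n : ℕ) (r : ℝ) : ℝ :=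
  ({f : ZMod (2 * n) → ℤ × ℤ | IsLoop (2 * n) f ∧ (width (2 * n) f : ℝ) ≤ r}.ncard : ℝ) /
    ({f : ZMod (2 * n) → ℤ × ℤ | IsLoop (2 * n) f}.ncard : ℝ)

/-- `ω` is an `n`-step self-avoiding walk on `ℤ²` started at the origin. -/
def IsSAW (n : ℕ) (ω : Fin (n + 1) → ℤ × ℤ) : Prop :=
  ω 0 = (0, 0) ∧
  (∀ i : Fin n, |(ω i.succ).1 - (ω i.castSucc).1| + |(ω i.succ).2 - (ω i.castSucc).2| = 1) ∧
  Function.Injective ω

/-- `c_n`: the number of `n`-step self-avoiding walks from the origin -/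
noncomputable def c (n : ℕ) : ℕ := Nat.card {ω : Fin (n + 1) → ℤ × ℤ // IsSAW n ω}

/-- `c_n(x)`: the number of `n`-step self-avoiding walks from the origin to `x` -/
noncomputable def cx (n : ℕ) (x : ℤ × ℤ) : ℕ :=
  Nat.card {ω : Fin (n + 1) → ℤ × ℤ // IsSAW n ω ∧ ω (Fin.last n) = x}

/-- the two-point function `G_z(x) = ∑_n c_n(x) z^n` -/
noncomputable def G (z : ℝ) (x : ℤ × ℤ) : ℝ := ∑' n : ℕ, (cx n x : ℝ) * z ^ n

theorem c_eq (n : ℕ) : c n = TH795.EP.c n := TH795.EP2.card_walks n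

theorem cx_eq (n : ℕ) (x : ℤ × ℤ) : cx n x = TH795.EP.a n x.1 x.2 := TH795.EP2.card_walks_to n x

theorem G_eq (z : ℝ) (k : ℕ) : G z ((k : ℤ), 0) = Y981.L2.Gz z k 0 := by
  unfold G Y981.L2.Gz
  apply tsum_congr
  intro n
  rw [cx_eq]

theorem narrow_eq (n : ℕ) (r : ℝ) : narrow n r = Pool.Agent.Helper365.SQ.nw n r := rfl

/-- powers beat the powers of logarithms -/
theorem beats4 {c K : ℝ} (hc : 0 < c) (hK : 0 < K) : ∀ᶠ N : ℕ in atTop,
    K * Real.log N ^ 4 ≤ (N : ℝ) ^ (c / Real.log (Real.log N)) := by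
  have h1 : Tendsto (fun N : ℕ => Real.log (N : ℝ)) atTop atTop :=
    Real.tendsto_log_atTop.comp tendsto_natCast_atTop_atTop
  have h2 : ∀ᶠ y : ℝ in atTop, Real.log y ^ 2 ≤ c / 12 * y := by
    have h3 := (Real.isLittleO_pow_log_id_atTop (n := 2)).bound (show 0 < c / 12 by positivity)
    filter_upwards [h3, eventually_ge_atTop 0] with y hy hy0
    rw [Real.norm_of_nonneg (by positivity), id, Real.norm_of_nonneg hy0] at hy
    exact hy
  have h4 := Pool.Agent.Y981.L2X.loglog_tendsto.eventually_ge_atTop (2 / c * Real.log K)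
  filter_upwards [h1.eventually h2, h4, h1.eventually_gt_atTop (Real.exp 1), eventually_ge_atTop 2]
    with N g1 g2 g3 g4
  obtain ⟨y, hy⟩ : ∃ y, y = Real.log (N : ℝ) := ⟨_, rfl⟩
  rw [← hy] at g1 g2 g3 ⊢
  have hN0 : (0 : ℝ) < N := by exact_mod_cast (by omega : 0 < N)
  have he : (1 : ℝ) < Real.exp 1 := by
    have := Real.add_one_lt_exp (show (1 : ℝ) ≠ 0 by norm_num)
    linarith
  have hy0 : 0 < y := by linarith
  have hl : 1 < Real.log y := by
    rw [Real.lt_log_iff_exp_lt hy0]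
    exact g3
  have hl0 : 0 < Real.log y := by linarith
  rw [Real.rpow_def_of_pos hN0, ← hy]
  have e1 : K * y ^ 4 = Real.exp (Real.log K + 4 * Real.log y) := by
    rw [Real.exp_add, Real.exp_log hK, mul_comm (4 : ℝ), Real.exp_mul, Real.exp_log hy0]
    norm_num
  rw [e1]
  apply Real.exp_le_exp.2
  have g5 : Real.log K ≤ c / 2 * (y / Real.log y) := by
    have := mul_le_mul_of_nonneg_left g2 (show 0 ≤ c / 2 by positivity)
    calc Real.log K = c / 2 * (2 / c * Real.log K) := by field_simp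
      _ ≤ _ := this
  have g6 : 4 * Real.log y ≤ c / 2 * (y / Real.log y) := by
    rw [mul_div_assoc', le_div_iff₀ hl0]
    nlinarith
  have e2 : y * (c / Real.log y) = c * (y / Real.log y) := by ring
  rw [e2]
  linarith

/-- **Theorem** (lower tail of the width).  Let `μ = lim c_n^(1/n)`.  For `0 < z < 1/μ` the
correlation length `ξ(z) = (lim_k - (1/k) log G_z((k, 0)))^(-1)` exists and is positive and finite.
Let `w_n` be the width of the uniform self-avoiding polygon of perimeter `2 n`.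
(1) There is `K` such that for all `2 ≤ N ≤ n`, with `x = ξ(e^(-1/N) / μ)`:
`w_n ≤ K x (log N)⁴` with probability at least `exp (- K (n/N) (log N)²)`, and for every integer
`W ≥ 1` with `K W x (log N)² ≤ N`, `w_n ≤ W` with probability at most `exp (- n / (K W x))`.
(2) There are `K, δ > 0` and `N₀` such that for all `N₀ ≤ N ≤ n`
`w_n ≤ N^(1 - δ / log log N)` with probability at least `exp (- K (n/N) (log N)²)`.
(3) If `0 < θ` and `ξ(z) ≤ (1/μ - z)^(-(θ+ε))` near `1/μ` for all `ε > 0`, then for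
`0 < β < θ` and `ε > 0` and all large `n`: `w_n ≤ n^β` with probability at least
`exp (- n^(1 - β/θ + ε))`. -/
theorem result : ∃ (μ : ℝ) (ξ : ℝ → ℝ), 0 < μ ∧
    Tendsto (fun n : ℕ => (c n : ℝ) ^ (1 / (n : ℝ))) atTop (𝓝 μ) ∧
    (∀ z : ℝ, 0 < z → z < 1 / μ → 0 < ξ z ∧
      Tendsto (fun k : ℕ => - Real.log (G z ((k : ℤ), 0)) / k) atTop (𝓝 (1 / ξ z))) ∧
    (∃ K : ℝ, 0 < K ∧ ∀ N n : ℕ, 2 ≤ N → N ≤ n → ∀ x : ℝ, x = ξ (Real.exp (-1 / N) / μ) →
      Real.exp (-(K * ((n : ℝ) / N) * Real.log N ^ 2)) ≤ narrow n (K * x * Real.log N ^ 4) ∧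
      ∀ W : ℕ, 1 ≤ W → K * W * x * Real.log N ^ 2 ≤ N →
        narrow n W ≤ Real.exp (-((n : ℝ) / (K * W * x)))) ∧
    (∃ (K δ : ℝ) (N₀ : ℕ), 0 < K ∧ 0 < δ ∧ ∀ N n : ℕ, N₀ ≤ N → N ≤ n →
      Real.exp (-(K * ((n : ℝ) / N) * Real.log N ^ 2)) ≤
        narrow n ((N : ℝ) ^ (1 - δ / Real.log (Real.log N)))) ∧
    ∀ θ : ℝ, 0 < θ →
      (∀ ε : ℝ, 0 < ε → ∀ᶠ z in 𝓝[<] (1 / μ), ξ z ≤ (1 / μ - z) ^ (-(θ + ε))) →
      ∀ β : ℝ, 0 < β → β < θ → ∀ ε : ℝ, 0 < ε → ∀ᶠ n : ℕ in atTop,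
        Real.exp (-((n : ℝ) ^ (1 - β / θ + ε))) ≤ narrow n ((n : ℝ) ^ β) := by
  have hmu := H981.mu_pos
  obtain ⟨K1, hK1, h1⟩ := Pool.Agent.Helper365.SQ.width_small
  obtain ⟨K3, hK3, h3⟩ := Pool.Agent.Helper365.SQ.width_upper
  have hxi : ∀ N : ℕ, 2 ≤ N → Y981.L2.xi (Real.exp (-1 / N) / H981.mu) =
      1 / Y981.L2.mass (1 / (N : ℝ)) := by
    intro N hN
    have e := Y981.L2.e_z (1 / (N : ℝ))
    have e2 : -(1 / (N : ℝ)) = -1 / N := by ring
    rw [e2] at e
    unfold Y981.L2.xi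
    rw [e]
  -- the basic inequality
  have hbase : ∀ N n : ℕ, 2 ≤ N → N ≤ n → ∀ r : ℝ,
      K1 * (Real.log N ^ 4 * (1 / Y981.L2.mass (1 / N))) ≤ r →
      Real.exp (-(K1 * ((n : ℝ) / N * Real.log N ^ 2))) ≤ narrow n r := by
    intro N n hN hn r hr
    rw [narrow_eq]
    refine (h1 N n hN hn).trans (Pool.Agent.Helper365.SQ.nw_mono (by omega) (le_trans ?_ hr))
    have e3 : Pool.Agent.Helper365.SB.Lg N = Real.log N ^ 2 := rfl
    rw [e3]
    apply le_of_eq
    ring
  refine ⟨H981.mu, Y981.L2.xi, hmu, ?_, ?_, ?_, ?_, ?_⟩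
  · have h := H981.tendsto_root
    refine h.congr ?_
    intro n
    rw [c_eq, TH795.EP.c_eq]
  · intro z hz hz1
    have he : 0 < -Real.log (z * H981.mu) := by
      have h1 : z * H981.mu < 1 := by rwa [lt_div_iff₀ hmu] at hz1
      have h2 := Real.log_neg (mul_pos hz hmu) h1
      linarith
    have hm := Y981.L2.mass_pos he
    constructor
    · unfold Y981.L2.xi
      positivity
    · have h := Y981.L2.G_tendsto hz hz1
      unfold Y981.L2.xi
      rw [one_div_one_div]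
      refine h.congr ?_
      intro k
      rw [G_eq]
  · -- (1)
    obtain ⟨K, hK⟩ : ∃ K, K = K1 + K3 := ⟨_, rfl⟩
    have hK0 : 0 < K := by rw [hK]; linarith
    refine ⟨K, hK0, fun N n hN hn x hx => ?_⟩
    have hN0 : (0 : ℝ) < N := by exact_mod_cast (by omega : 0 < N)
    have hn0 : (0 : ℝ) < n := by exact_mod_cast (by omega : 0 < n)
    have hm : 0 < Y981.L2.mass (1 / (N : ℝ)) := Y981.L2.mass_pos (by positivity)
    rw [hxi N hN] at hx
    have hx0 : 0 < x := by rw [hx]; positivity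
    have hL : 0 ≤ Real.log (N : ℝ) ^ 2 := sq_nonneg _
    constructor
    · refine le_trans (Real.exp_le_exp.2 ?_) (hbase N n hN hn _ ?_)
      · have : 0 ≤ (n : ℝ) / N * Real.log N ^ 2 := by positivity
        rw [hK]
        nlinarith
      · rw [← hx]
        have : 0 ≤ Real.log (N : ℝ) ^ 4 * x := by positivity
        rw [hK]
        nlinarith
    · intro W hW hWN
      obtain ⟨m, hmm⟩ : ∃ m, m = Y981.L2.mass (1 / (N : ℝ)) := ⟨_, rfl⟩
      rw [← hmm] at hm hx
      have hW1 : (1 : ℝ) ≤ W := by exact_mod_cast hW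
      have hxm : x * m = 1 := by rw [hx]; field_simp
      have hcond : K3 * W * Pool.Agent.Helper365.SB.Lg N ≤ N * m := by
        have e2 : Pool.Agent.Helper365.SB.Lg N = Real.log N ^ 2 := rfl
        rw [e2]
        have g1 : K * W * Real.log N ^ 2 ≤ N * m := by
          have g2 := mul_le_mul_of_nonneg_right hWN hm.le
          calc K * W * Real.log N ^ 2 = K * W * x * Real.log N ^ 2 * m := by
                rw [show K * W * x * Real.log N ^ 2 * m = K * W * Real.log N ^ 2 * (x * m) by ring,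
                  hxm, mul_one]
            _ ≤ _ := g2
        have g3 : K3 * (W : ℝ) ≤ K * W := mul_le_mul_of_nonneg_right (by rw [hK]; linarith)
          (by linarith)
        have g4 := mul_le_mul_of_nonneg_right g3 hL
        linarith
      have h5 := h3 N n W hN hn hW (by rw [← hmm]; exact hcond)
      rw [narrow_eq]
      refine h5.trans (Real.exp_le_exp.2 ?_)
      rw [← hmm]
      apply neg_le_neg
      rw [div_le_div_iff₀ (by positivity) (by positivity)]
      have g3 : K3 * (W : ℝ) ≤ K * W := mul_le_mul_of_nonneg_right (by rw [hK]; linarith)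
        (by linarith)
      calc (n : ℝ) * (K3 * W) ≤ n * (K * W) := mul_le_mul_of_nonneg_left g3 hn0.le
        _ = n * m * (K * W * x) := by
            rw [show (n : ℝ) * m * (K * W * x) = n * (K * W) * (x * m) by ring, hxm, mul_one]
  · -- (2)
    obtain ⟨δ, hδ, hmass⟩ := Pool.Agent.Y981.L2X.le_mass
    have hinv : Tendsto (fun N : ℕ => 1 / (N : ℝ)) atTop (𝓝[>] (0 : ℝ)) := by
      rw [tendsto_nhdsWithin_iff]
      refine ⟨tendsto_one_div_atTop_nhds_zero_nat, ?_⟩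
      filter_upwards [eventually_ge_atTop 1] with N hN
      have : (0 : ℝ) < N := by exact_mod_cast hN
      exact Set.mem_Ioi.2 (by positivity)
    have hev := ((hinv.eventually hmass).and (beats4 (show 0 < δ / 2 by positivity) hK1)).and
      (eventually_ge_atTop 16)
    obtain ⟨N₀, hN₀⟩ := Filter.eventually_atTop.1 hev
    refine ⟨K1, δ / 2, N₀, hK1, by positivity, fun N n hN hn => ?_⟩
    obtain ⟨⟨g1, g2⟩, g3⟩ := hN₀ N hN
    have hN0 : (0 : ℝ) < N := by exact_mod_cast (by omega : 0 < N)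
    have hm : 0 < Y981.L2.mass (1 / (N : ℝ)) := Y981.L2.mass_pos (by positivity)
    rw [one_div_one_div] at g1
    have e0 : K1 * ((n : ℝ) / N) * Real.log N ^ 2 = K1 * ((n : ℝ) / N * Real.log N ^ 2) := by ring
    rw [e0]
    refine hbase N n (by omega) hn _ ?_
    obtain ⟨ℓ, hℓ⟩ : ∃ ℓ, ℓ = Real.log (Real.log (N : ℝ)) := ⟨_, rfl⟩
    rw [← hℓ] at g1 g2 ⊢
    have e1 : ((1 : ℝ) / N) ^ (1 - δ / ℓ) = ((N : ℝ) ^ (1 - δ / ℓ))⁻¹ := by
      rw [one_div, Real.inv_rpow hN0.le]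
    rw [e1] at g1
    have hP : (0 : ℝ) < (N : ℝ) ^ (1 - δ / ℓ) := Real.rpow_pos_of_pos hN0 _
    have h5 : 1 / Y981.L2.mass (1 / (N : ℝ)) ≤ (N : ℝ) ^ (1 - δ / ℓ) := by
      rw [div_le_iff₀ hm]
      have := mul_le_mul_of_nonneg_left g1 hP.le
      rwa [mul_inv_cancel₀ hP.ne'] at this
    calc K1 * (Real.log N ^ 4 * (1 / Y981.L2.mass (1 / N)))
        = (1 / Y981.L2.mass (1 / N)) * (K1 * Real.log N ^ 4) := by ring
      _ ≤ (N : ℝ) ^ (1 - δ / ℓ) * (N : ℝ) ^ (δ / 2 / ℓ) :=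
          mul_le_mul h5 g2 (by positivity) hP.le
      _ = _ := by
          rw [← Real.rpow_add hN0]
          congr 1
          ring
  · -- (3)
    intro θ hθ hX β hβ1 hβ2 ε hε
    have M : Y981.L2.MassLow θ := (Y981.L2.xi_upper θ hθ).2 hX
    obtain ⟨a, ha⟩ : ∃ a, a = β / θ := ⟨_, rfl⟩
    have ha0 : 0 < a := by rw [ha]; positivity
    have ha1 : a < 1 := by rw [ha, div_lt_one hθ]; linarith
    have ea : a * θ = β := by rw [ha]; field_simp
    obtain ⟨η, hη0, hηa, hηε⟩ : ∃ η : ℝ, 0 < η ∧ η ≤ a / 2 ∧ η ≤ ε / 3 :=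
      ⟨min (a / 2) (ε / 3), lt_min (by linarith) (by linarith), min_le_left _ _, min_le_right _ _⟩
    obtain ⟨ζ, hζ⟩ : ∃ ζ, ζ = η * θ / 2 := ⟨_, rfl⟩
    have hζ0 : 0 < ζ := by rw [hζ]; positivity
    have hτ0 : 0 < a - η := by linarith
    have hfl : Tendsto (fun n : ℕ => ⌊(n : ℝ) ^ (a - η)⌋₊) atTop atTop :=
      tendsto_nat_floor_atTop.comp ((tendsto_rpow_atTop hτ0).comp tendsto_natCast_atTop_atTop)
    have hinv : Tendsto (fun N : ℕ => 1 / (N : ℝ)) atTop (𝓝[>] (0 : ℝ)) := by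
      rw [tendsto_nhdsWithin_iff]
      refine ⟨tendsto_one_div_atTop_nhds_zero_nat, ?_⟩
      filter_upwards [eventually_ge_atTop 1] with N hN
      have : (0 : ℝ) < N := by exact_mod_cast hN
      exact Set.mem_Ioi.2 (by positivity)
    obtain ⟨K2, hK2, hK21⟩ : ∃ K2 : ℝ, K1 ≤ K2 ^ 2 ∧ 1 ≤ K2 :=
      ⟨K1 + 1, by nlinarith [mul_pos hK1 hK1], by linarith⟩
    have hev1 : ∀ᶠ N : ℕ in atTop, 16 ≤ N ∧
        (1 / (N : ℝ)) ^ (θ + ζ) ≤ Y981.L2.mass (1 / (N : ℝ)) ∧
        K2 * Real.log N ^ 2 + 0 ≤ (N : ℝ) ^ (ζ / 2) :=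
      (eventually_ge_atTop 16).and ((hinv.eventually (M ζ hζ0)).and
        (Y981.L2.ev_log K2 0 (show 0 < ζ / 2 by linarith)))
    filter_upwards [hfl.eventually hev1, Y981.L2.ev_log (2 * K1) 0 hη0, eventually_ge_atTop 16,
      Y981.L2.ev_pow 1 (show a - η < 1 by linarith)] with n hN1 hn2 hn3 hn4
    obtain ⟨N, hN⟩ : ∃ N, N = ⌊(n : ℝ) ^ (a - η)⌋₊ := ⟨_, rfl⟩
    rw [← hN] at hN1
    obtain ⟨g1, g2, g3⟩ := hN1
    have hn0 : (0 : ℝ) < n := by exact_mod_cast (by omega : 0 < n)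
    have hn1 : (1 : ℝ) ≤ n := by exact_mod_cast (by omega : 1 ≤ n)
    have hN0 : (0 : ℝ) < N := by exact_mod_cast (by omega : 0 < N)
    have hNu : (N : ℝ) ≤ (n : ℝ) ^ (a - η) := by
      rw [hN]
      exact Nat.floor_le (Real.rpow_nonneg hn0.le _)
    have hNn : N ≤ n := by
      have : (N : ℝ) ≤ n := by
        rw [Real.rpow_one, one_mul] at hn4
        exact hNu.trans hn4
      exact_mod_cast this
    have hNl : (n : ℝ) ^ (a - η) ≤ 2 * N := by
      have h5 := Nat.lt_floor_add_one ((n : ℝ) ^ (a - η))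
      rw [← hN] at h5
      have : (1 : ℝ) ≤ N := by exact_mod_cast (by omega : 1 ≤ N)
      linarith
    have hlN : 0 ≤ Real.log N := Real.log_nonneg (by exact_mod_cast (by omega : 1 ≤ N))
    have hlNn : Real.log N ≤ Real.log n := Real.log_le_log hN0 (by exact_mod_cast hNn)
    have hm : 0 < Y981.L2.mass (1 / (N : ℝ)) := Y981.L2.mass_pos (by positivity)
    refine le_trans (Real.exp_le_exp.2 ?_) (hbase N n (by omega) hNn _ ?_)
    · -- the probability
      apply neg_le_neg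
      rw [← ha]
      have h6 : (n : ℝ) / N ≤ 2 * (n : ℝ) ^ (1 - (a - η)) := by
        rw [div_le_iff₀ hN0]
        have e6 : (n : ℝ) = (n : ℝ) ^ (1 - (a - η)) * (n : ℝ) ^ (a - η) := by
          rw [← Real.rpow_add hn0]
          have : 1 - (a - η) + (a - η) = 1 := by ring
          rw [this, Real.rpow_one]
        have hp := Real.rpow_nonneg hn0.le (1 - (a - η))
        calc (n : ℝ) = (n : ℝ) ^ (1 - (a - η)) * (n : ℝ) ^ (a - η) := e6
          _ ≤ (n : ℝ) ^ (1 - (a - η)) * (2 * N) := mul_le_mul_of_nonneg_left hNl hp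
          _ = _ := by ring
      have h7 : Real.log N ^ 2 ≤ Real.log n ^ 2 := pow_le_pow_left₀ hlN hlNn 2
      have hp := Real.rpow_nonneg hn0.le (1 - (a - η))
      calc K1 * ((n : ℝ) / N * Real.log N ^ 2)
          ≤ K1 * (2 * (n : ℝ) ^ (1 - (a - η)) * Real.log n ^ 2) := by
            apply mul_le_mul_of_nonneg_left _ hK1.le
            exact mul_le_mul h6 h7 (by positivity) (by positivity)
        _ = (n : ℝ) ^ (1 - (a - η)) * (2 * K1 * Real.log n ^ 2) := by ring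
        _ ≤ (n : ℝ) ^ (1 - (a - η)) * (n : ℝ) ^ η :=
            mul_le_mul_of_nonneg_left (by linarith) hp
        _ = (n : ℝ) ^ (1 - a + 2 * η) := by
            rw [← Real.rpow_add hn0]
            congr 1
            ring
        _ ≤ _ := Real.rpow_le_rpow_of_exponent_le hn1 (by linarith)
    · -- the width
      have e1 : ((1 : ℝ) / N) ^ (θ + ζ) = ((N : ℝ) ^ (θ + ζ))⁻¹ := by
        rw [one_div, Real.inv_rpow hN0.le]
      rw [e1] at g2
      have hP : (0 : ℝ) < (N : ℝ) ^ (θ + ζ) := Real.rpow_pos_of_pos hN0 _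
      have h5 : 1 / Y981.L2.mass (1 / (N : ℝ)) ≤ (N : ℝ) ^ (θ + ζ) := by
        rw [div_le_iff₀ hm]
        have := mul_le_mul_of_nonneg_left g2 hP.le
        rwa [mul_inv_cancel₀ hP.ne'] at this
      have h7 : K1 * Real.log N ^ 4 ≤ (N : ℝ) ^ ζ := by
        have h8 : (K2 * Real.log N ^ 2) ^ 2 ≤ ((N : ℝ) ^ (ζ / 2)) ^ 2 :=
          pow_le_pow_left₀ (by positivity) (by linarith) 2
        have e9 : ((N : ℝ) ^ (ζ / 2)) ^ 2 = (N : ℝ) ^ ζ := by
          rw [← Real.rpow_natCast, ← Real.rpow_mul hN0.le]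
          congr 1
          push_cast
          ring
        rw [e9] at h8
        calc K1 * Real.log N ^ 4 ≤ K2 ^ 2 * Real.log N ^ 4 :=
              mul_le_mul_of_nonneg_right hK2 (by positivity)
          _ = (K2 * Real.log N ^ 2) ^ 2 := by ring
          _ ≤ _ := h8
      calc K1 * (Real.log N ^ 4 * (1 / Y981.L2.mass (1 / N)))
          = (K1 * Real.log N ^ 4) * (1 / Y981.L2.mass (1 / (N : ℝ))) := by ring
        _ ≤ (N : ℝ) ^ ζ * (N : ℝ) ^ (θ + ζ) :=
            mul_le_mul h7 h5 (by positivity) (Real.rpow_nonneg hN0.le _)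
        _ = (N : ℝ) ^ (θ + 2 * ζ) := by
            rw [← Real.rpow_add hN0]
            congr 1
            ring
        _ ≤ ((n : ℝ) ^ (a - η)) ^ (θ + 2 * ζ) :=
            Real.rpow_le_rpow hN0.le hNu (by linarith)
        _ = (n : ℝ) ^ ((a - η) * (θ + 2 * ζ)) := by
            rw [← Real.rpow_mul hn0.le]
        _ ≤ (n : ℝ) ^ β := by
            apply Real.rpow_le_rpow_of_exponent_le hn1
            rw [hζ, ← ea]
            have h11 : (a - η) * (2 * (η * θ / 2)) ≤ 1 * (2 * (η * θ / 2)) :=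
              mul_le_mul_of_nonneg_right (by linarith) (by positivity)
            nlinarith

end Pool.Agent.Results.MP_c23e5f_co.WidthLowerTail
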